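import Pool.Agent.helper96.SV.SpecA

/-!
# Project sva: (MP_b5a345_ag): CNT, counting conditions
-/

set_option autoImplicit false
set_option linter.unusedSectionVars false

namespace Pool.Agent.SVA

open Polynomial Module

theorem CNT_aux {V W : Type} [AddCommGroup V] [Module ℂ V] [AddCommGroup W] [Module ℂ W]
    [Module.Finite ℂ W] (S T : Submodule ℂ V) [Module.Finite ℂ S] [Module.Finite ℂ T]
    (f : V →ₗ[ℂ] W) (hT : ∀ v ∈ S, f v = 0 → v ∈ T) :
    finrank ℂ S ≤ finrank ℂ T + finrank ℂ W := by
  have h1 := LinearMap.finrank_range_add_finrank_ker (f.domRestrict S)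
  have h2 : finrank ℂ (LinearMap.range (f.domRestrict S)) ≤ finrank ℂ W := Submodule.finrank_le _
  have h3 : finrank ℂ (LinearMap.ker (f.domRestrict S)) ≤ finrank ℂ T := by
    let g : LinearMap.ker (f.domRestrict S) →ₗ[ℂ] T :=
      { toFun := fun v => ⟨v.1.1, hT v.1.1 v.1.2 (by
          have := v.2
          rw [LinearMap.mem_ker, LinearMap.domRestrict_apply] at this
          exact this)⟩
        map_add' := fun _ _ => rfl
        map_smul' := fun _ _ => rfl }
    refine LinearMap.finrank_le_finrank_of_injective (f := g) ?_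
    intro a b hab
    apply Subtype.ext
    apply Subtype.ext
    have h5 : (g a).1 = (g b).1 := congrArg (fun t : T => t.1) hab
    exact h5
  omega

section
variable {K : Type} [Fintype K] [DecidableEq K] {m : K → ℕ}

/-- the conditions at a point as a linear map -/
noncomputable def CNT_phi (P : Py m × ℂ) :
    (Bx m → ℂ[X]) →ₗ[ℂ] (Module.Dual ℂ (Tan P.1) × ℂ) where
  toFun F := ({ toFun := fun z => pr (ev P.2 F) z.1
                map_add' := fun z w => pr_add_right _ _ _
                map_smul' := fun s z => pr_smul_right _ _ _ }, pr (dv P.2 F) (ten P.1))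
  map_add' F G := by
    refine Prod.ext ?_ ?_
    · apply LinearMap.ext
      intro z
      show pr (ev P.2 (F + G)) z.1 = pr (ev P.2 F) z.1 + pr (ev P.2 G) z.1
      rw [ev_add, pr_add_left]
    · show pr (dv P.2 (F + G)) (ten P.1) = pr (dv P.2 F) (ten P.1) + pr (dv P.2 G) (ten P.1)
      rw [dv_add, pr_add_left]
  map_smul' s F := by
    refine Prod.ext ?_ ?_
    · apply LinearMap.ext
      intro z
      show pr (ev P.2 (s • F)) z.1 = s * pr (ev P.2 F) z.1
      rw [ev_smul, pr_smul_left]
    · show pr (dv P.2 (s • F)) (ten P.1) = s * pr (dv P.2 F) (ten P.1)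
      rw [dv_smul, pr_smul_left]

theorem CNT_mem (P : Py m × ℂ) (F : Bx m → ℂ[X]) (h : CNT_phi P F = 0) : F ∈ Sg P := by
  rw [mem_Sg]
  have h1 := congrArg Prod.fst h
  have h2 := congrArg Prod.snd h
  refine ⟨fun z hz => ?_, h2⟩
  have h3 := congrArg (fun L : Module.Dual ℂ (Tan P.1) => L ⟨z, hz⟩) h1
  exact h3

end

theorem CNT (hWDM : WDM_stmt) (hTDM : TDM_stmt) : CNT_stmt := by
  intro K _ _ _ m e l P
  have key : ∀ (l : List (Py m × ℂ)) (P : Py m × ℂ),
      finrank ℂ (NN e l) ≤ finrank ℂ (NN e (P :: l)) + DD m := by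
    intro l P
    have h1 := CNT_aux (NN e l) (NN e (P :: l)) (CNT_phi P) (by
      intro F hF h0
      rw [mem_NN] at hF ⊢
      refine ⟨hF.1, fun Q hQ => ?_⟩
      rcases List.mem_cons.mp hQ with rfl | hQ
      · exact CNT_mem Q F h0
      · exact hF.2 Q hQ)
    have h2 : finrank ℂ (Module.Dual ℂ (Tan P.1) × ℂ) = finrank ℂ (Tan P.1) + 1 := by
      rw [Module.finrank_prod, Subspace.dual_finrank_eq, Module.finrank_self]
    have h3 := (hTDM P.1).1
    omega
  refine ⟨key l P, ?_⟩
  clear P
  induction l with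
  | nil =>
    have h1 : NN e ([] : List (Py m × ℂ)) = WW m e := by
      ext F
      rw [mem_NN, mem_WW]
      simp
    rw [h1, hWDM m e]
    simp
  | cons P l ih =>
    have h1 := key l P
    have h2 : (P :: l).length * DD m = l.length * DD m + DD m := by
      rw [List.length_cons]; ring
    omega

end Pool.Agent.SVA
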