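import Pool.Agent.helper96.SV.SpecA

/-!
# Project sva: (MP_b5a345_ag): KEY, one block lowers the defect
-/

set_option autoImplicit false
set_option linter.unusedSectionVars false

namespace Pool.Agent.SVA

open Polynomial Module

theorem KEY_NN_zero {K : Type} [Fintype K] [DecidableEq K] {m : K → ℕ} (l : List (Py m × ℂ)) :
    finrank ℂ (NN 0 l) = 0 := by
  have h : NN 0 l = ⊥ := by
    rw [Submodule.eq_bot_iff]
    intro F hF
    rw [mem_NN] at hF
    funext β
    have h1 := hF.1 β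
    have h2 : (F β).degree < 0 := by simpa using h1
    by_contra h3
    rw [Polynomial.degree_eq_natDegree h3] at h2
    exact absurd h2 (not_lt.mpr (by exact_mod_cast Nat.zero_le _))
  rw [h]
  exact finrank_bot ℂ _

theorem KEY_eq_bot {K : Type} [Fintype K] [DecidableEq K] {m : K → ℕ} {e : ℕ} {l : List (Py m × ℂ)}
    (h : finrank ℂ (NN e l) = 0) : ∀ G ∈ NN e l, G = 0 := by
  intro G hG
  have h1 : NN e l = ⊥ := Submodule.finrank_eq_zero.mp h
  rw [h1] at hG
  exact (Submodule.mem_bot ℂ).mp hG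

theorem KEY_same {K : Type} [Fintype K] [DecidableEq K] {m : K → ℕ} (hMNO : MNO_stmt) (e : ℕ)
    (l l' : List (Py m × ℂ)) (h : ∀ P, P ∈ l ↔ P ∈ l') : finrank ℂ (NN e l) = finrank ℂ (NN e l') :=
  le_antisymm (hMNO e e l l' le_rfl (fun P hP => (h P).mpr hP)).2
    (hMNO e e l' l le_rfl (fun P hP => (h P).mp hP)).2

theorem KEY_gzgz {K : Type} [Fintype K] [DecidableEq K] {m : K → ℕ} (hGZT : GZT_stmt)
    (g : (i : K) → Matrix (Fin (m i + 1)) (Fin (m i + 1)) ℂ) (hg : ∀ i, IsUnit (g i).det)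
    (z : Bx m → ℂ) : gz g (gz (fun i => (g i)⁻¹) z) = z := by
  obtain ⟨_, _, h3, h4, _⟩ := hGZT (m := m) g (fun i => (g i)⁻¹)
  rw [h3 z]
  have : (fun i => g i * (g i)⁻¹) = fun _ => 1 := by
    funext i
    exact Matrix.mul_nonsing_inv (g i) (hg i)
  rw [this]
  exact h4 z

theorem KEY (hREL : REL_stmt) (hMU : MU_stmt) (hROT : ROT_stmt) (hGZT : GZT_stmt) (hKZ : KZ_stmt)
    (hBLD : BLD_stmt) (hSEM : SEM_stmt) (hCNT : CNT_stmt) (hDIV : DIV_stmt) (hMNO : MNO_stmt)
    (hTEN : TEN_stmt) : KEY_stmt := by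
  intro K _ _ _ m hK hm e l P hlP hP hcount hbal hdef hpos
  have he : 1 ≤ e := by
    rcases Nat.eq_zero_or_pos e with h | h
    · subst h
      rw [KEY_NN_zero] at hpos
      omega
    · exact h
  -- a nonzero section
  obtain ⟨F, hF, hF0⟩ : ∃ F ∈ NN e (P :: l), F ≠ 0 := by
    by_contra hcon
    push Not at hcon
    have h1 : NN e (P :: l) = ⊥ := (Submodule.eq_bot_iff _).mpr hcon
    rw [h1, finrank_bot] at hpos
    omega
  have hFl : F ∈ NN e l := by
    rw [mem_NN] at hF ⊢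
    exact ⟨hF.1, fun Q hQ => hF.2 Q (List.mem_cons_of_mem _ hQ)⟩
  have hφ : ev P.2 F ≠ 0 := by
    intro h0
    have hFl' : F ∈ NN ((e - 1) + 1) l := by
      rw [Nat.sub_add_cancel he]; exact hFl
    obtain ⟨G, hG, hFG⟩ := hDIV (m := m) (e - 1) l P.2 hlP F hFl' h0
    have hG0 := KEY_eq_bot hbal G hG
    apply hF0
    rw [hFG, hG0]
    funext β
    simp
  obtain ⟨z, c, z₀, c₀, hz, hz₀, hne, hrel⟩ := hREL e l P hP hcount hdef
  -- the vector ζ
  obtain ⟨hT1, hT2, hT3, hT4⟩ := hTEN (K := K) (m := m)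
  let ζ : Bx m → ℂ := if c₀ = 0 then z₀ else ten P.1
  have hζ : ζ ≠ 0 := by
    by_cases hc : c₀ = 0
    · simp only [ζ, hc, if_true]
      rcases hne with h | h
      · exact h
      · exact absurd hc h
    · simp only [ζ, hc, if_false]
      exact hT4 P.1 hP
  obtain ⟨g, hg, α, hα⟩ := hMU hK hm (ev P.2 F) ζ hφ hζ
  obtain ⟨hR1, hR2, hR3, hR4, hR5⟩ := hROT g hg
  set h : (i : K) → Matrix (Fin (m i + 1)) (Fin (m i + 1)) ℂ := fun i => (g i)⁻¹ with hh
  obtain ⟨hG1, -, -, -, -, -, hG7⟩ := hGZT (m := m) h h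
  obtain ⟨-, hG2, -, -, -, -, -⟩ := hGZT (m := m) g g
  have hpr : ∀ a z : Bx m → ℂ, pr (gt g a) (gz h z) = pr a z := by
    intro a z
    rw [hG2, KEY_gzgz hGZT g hg]
  let lh := l.map (rotP h)
  let Ph := rotP h P
  have hFg : gtP g F ∈ NN e (Ph :: lh) := by
    rw [mem_NN]
    refine ⟨?_, ?_⟩
    · rw [← mem_WW]
      exact (hR2 e F).mpr (NN_le _ _ hF)
    · intro Q hQ
      have hQ' : Q ∈ (P :: l).map (rotP h) := hQ
      obtain ⟨Q', hQ2, rfl⟩ := List.mem_map.mp hQ'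
      exact (hR1 Q' F).mpr ((mem_NN.mp hF).2 Q' hQ2)
  have hlen : lh.length = l.length := List.length_map _
  have hget : ∀ j : Fin lh.length, lh.get j = rotP h (l.get (Fin.cast hlen j)) := by
    intro j
    simp [lh]
  have hpar : ∀ Q ∈ lh, Q.2 ≠ Ph.2 := by
    intro Q hQ
    obtain ⟨Q', hQ', rfl⟩ := List.mem_map.mp hQ
    exact hlP Q' hQ'
  have hrel' : ∀ G ∈ WW m e, (∑ j : Fin lh.length, (pr (ev (lh.get j).2 G) (gz h (z (Fin.cast hlen j))) +
          c (Fin.cast hlen j) * pr (dv (lh.get j).2 G) (ten (lh.get j).1))) +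
        (pr (ev Ph.2 G) (gz h z₀) + c₀ * pr (dv Ph.2 G) (ten Ph.1)) = 0 := by
    intro G hG
    obtain ⟨G', rfl⟩ := hR3 G
    have hG' : G' ∈ WW m e := (hR2 e G').mp hG
    have h1 := hrel G' hG'
    have key : ∀ (Q : Py m × ℂ) (w : Bx m → ℂ) (b : ℂ),
        pr (ev (rotP h Q).2 (gtP g G')) (gz h w) + b * pr (dv (rotP h Q).2 (gtP g G')) (ten (rotP h Q).1) =
          pr (ev Q.2 G') w + b * pr (dv Q.2 G') (ten Q.1) := by
      intro Q w b
      have e1 : (rotP h Q).2 = Q.2 := rfl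
      have e2 : ten (rotP h Q).1 = gz h (ten Q.1) := (hG1 Q.1).symm
      rw [e1, e2, (hR4 Q.2 G').1, (hR4 Q.2 G').2, hpr, hpr]
    have e3 : (∑ j : Fin lh.length, (pr (ev (lh.get j).2 (gtP g G')) (gz h (z (Fin.cast hlen j))) +
          c (Fin.cast hlen j) * pr (dv (lh.get j).2 (gtP g G')) (ten (lh.get j).1))) =
        ∑ j : Fin l.length, (pr (ev (l.get j).2 G') (z j) + c j * pr (dv (l.get j).2 G') (ten (l.get j).1)) := by
      refine Fintype.sum_equiv (finCongr hlen) _ _ ?_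
      intro j
      rw [hget j, key]
      rfl
    rw [e3, key P z₀ c₀]
    exact h1
  -- the hypothesis of KZ on the eigenvector
  have hev : ev Ph.2 (gtP g F) = gt g (ev P.2 F) := (hR4 P.2 F).1
  have hcase : (c₀ ≠ 0 ∧ ∃ α, Mx (fun β => ev Ph.2 (gtP g F) β * ten Ph.1 β) α ≠ 0) ∨
        (c₀ = 0 ∧ ∃ α, Mx (fun β => ev Ph.2 (gtP g F) β * gz h z₀ β) α ≠ 0) := by
    by_cases hc : c₀ = 0
    · right
      refine ⟨hc, α, ?_⟩
      rw [hev]
      simpa only [ζ, hc, if_true] using hα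
    · left
      refine ⟨hc, α, ?_⟩
      rw [hev]
      have e2 : ten Ph.1 = gz h (ten P.1) := (hG1 P.1).symm
      rw [e2]
      simpa only [ζ, hc, if_false] using hα
  obtain ⟨t₀, σ, hσ, ht₀, hfin1⟩ := hKZ e lh Ph hpar (gtP g F) hFg
    (fun j => gz h (z (Fin.cast hlen j))) (fun j => c (Fin.cast hlen j)) (gz h z₀) c₀
    (by
      intro j
      rw [hget j]
      exact hG7 _ _ (hz _))
    (hG7 _ _ hz₀) hrel' hcase
  have htl : ∀ Q ∈ lh, Q.2 ≠ t₀ := fun Q hQ => ht₀ Q (List.mem_cons_of_mem _ hQ)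
  have htP : P.2 ≠ t₀ := ht₀ Ph List.mem_cons_self
  have hfin2 := hSEM e lh t₀ σ htl
  have hfin3 := hSEM (e - 1) lh t₀ σ htl
  have hfin4 : {ε : ℂ | ∃ α, t₀ + ε * σ α = P.2}.Finite := by
    have h1 : {ε : ℂ | ∃ α, t₀ + ε * σ α = P.2} ⊆ ⋃ α, {(P.2 - t₀) / σ α} := by
      rintro ε ⟨β, hβ⟩
      rw [Set.mem_iUnion]
      refine ⟨β, ?_⟩
      rw [Set.mem_singleton_iff]
      have h2 : σ β ≠ 0 := by
        intro h3
        rw [h3, mul_zero, add_zero] at hβ
        exact htP hβ.symm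
      field_simp
      rw [← hβ]
      ring
    exact (Set.finite_iUnion fun _ => Set.finite_singleton _).subset h1
  obtain ⟨ε, hε⟩ := (((hfin1.union hfin2).union (hfin3.union hfin4)).union
    (Set.finite_singleton (0 : ℂ))).exists_notMem
  simp only [Set.mem_union, Set.mem_ofPred_eq, Set.mem_singleton_iff, not_or, not_not, not_exists] at hε
  obtain ⟨⟨⟨hε1, hε2⟩, hε3, hε4⟩, hε5⟩ := hε
  set q : Bx m → ℂ := fun α => t₀ + ε * σ α with hq
  have hqinj : Function.Injective q := by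
    intro a b hab
    apply hσ
    have : ε * σ a = ε * σ b := by
      have := hab
      simp only [hq] at this
      exact add_left_cancel this
    exact mul_left_cancel₀ hε5 this
  have hN1 : finrank ℂ (NN e lh) = finrank ℂ (NN e l) := hR5 e l
  have hN2 : finrank ℂ (NN (e - 1) lh) = 0 := by rw [hR5 (e - 1) l]; exact hbal
  have hN3 : finrank ℂ (NN e (Ph :: lh)) = finrank ℂ (NN e (P :: l)) := hR5 e (P :: l)
  have hB1 := hBLD q hqinj e lh
  have hB2 := hBLD q hqinj (e - 1) lh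
  have hB3 := hBLD q hqinj e (Ph :: lh)
  have hlen' : (blkL q ++ lh).length = l.length + vv m := by
    rw [List.length_append, length_blkL, hlen, add_comm]
  refine ⟨blkL q ++ lh, Ph, hlen', rfl, ?_, ?_, ?_, ?_, ?_⟩
  · intro Q hQ
    rcases List.mem_append.mp hQ with hQ | hQ
    · obtain ⟨β, rfl⟩ := mem_blkL.mp hQ
      exact hε4 β
    · exact hpar Q hQ
  · intro i h0
    apply hP i
    have h1 : (g i).mulVec ((h i).mulVec (P.1 i)) = P.1 i := by
      rw [Matrix.mulVec_mulVec, hh]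
      simp only
      rw [Matrix.mul_nonsing_inv (g i) (hg i), Matrix.one_mulVec]
    have h0' : (h i).mulVec (P.1 i) = 0 := h0
    rw [h0', Matrix.mulVec_zero] at h1
    exact h1.symm
  · have hc := (hCNT (m := m) (e + DD m) (blkL q ++ lh) Ph).2
    rw [hlen'] at hc
    have h1 : vv m * (e + DD m) = vv m * e + vv m * DD m := by ring
    have h2 : (l.length + vv m) * DD m = l.length * DD m + vv m * DD m := by ring
    have h3 : finrank ℂ (NN (e + DD m) (blkL q ++ lh)) ≤ finrank ℂ (NN e l) := by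
      rw [hB1, ← hN1]; exact hε2
    omega
  · have h1 : e + DD m - 1 = (e - 1) + DD m := by omega
    rw [h1, hB2]
    have h2 := hε3
    rw [hN2] at h2
    exact Nat.le_zero.mp h2
  · have h1 : finrank ℂ (NN (e + DD m) (Ph :: (blkL q ++ lh))) =
        finrank ℂ (NN (e + DD m) (blkL q ++ (Ph :: lh))) := by
      apply KEY_same hMNO
      intro Q
      simp only [List.mem_cons, List.mem_append]
      tauto
    rw [h1, hB3, ← hN3]
    exact hε1

end Pool.Agent.SVA
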