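import Pool.Agent.helper96.SV.SpecA

/-!
# Project sva: (MP_b5a345_ag): SUR, the next degree
-/

set_option autoImplicit false
set_option linter.unusedSectionVars false

namespace Pool.Agent.SVA

open Polynomial Module

theorem SUR_aux {V W : Type} [AddCommGroup V] [Module ℂ V] [AddCommGroup W] [Module ℂ W]
    (S T : Submodule ℂ V) [Module.Finite ℂ S] [Module.Finite ℂ T] (A : Submodule ℂ W)
    [Module.Finite ℂ A] (f : V →ₗ[ℂ] W) (hA : ∀ v ∈ S, f v ∈ A)
    (hT : ∀ v ∈ S, f v = 0 → v ∈ T) :
    finrank ℂ S ≤ finrank ℂ T + finrank ℂ A := by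
  let f' : S →ₗ[ℂ] A := (f.domRestrict S).codRestrict A (fun v => hA v.1 v.2)
  have h1 := LinearMap.finrank_range_add_finrank_ker f'
  have h2 : finrank ℂ (LinearMap.range f') ≤ finrank ℂ A := Submodule.finrank_le _
  have h3 : finrank ℂ (LinearMap.ker f') ≤ finrank ℂ T := by
    let g : LinearMap.ker f' →ₗ[ℂ] T :=
      { toFun := fun v => ⟨v.1.1, hT v.1.1 v.1.2 (by
          have h4 := v.2
          rw [LinearMap.mem_ker] at h4
          exact congrArg (fun a : A => a.1) h4)⟩
        map_add' := fun _ _ => rfl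
        map_smul' := fun _ _ => rfl }
    refine LinearMap.finrank_le_finrank_of_injective (f := g) ?_
    intro a b hab
    apply Subtype.ext
    apply Subtype.ext
    have h5 : (g a).1 = (g b).1 := congrArg (fun t : T => t.1) hab
    exact h5
  omega

section
variable {K : Type} [Fintype K] [DecidableEq K] {m : K → ℕ}

/-- value at `p` as a linear map -/
noncomputable def SUR_ev (p : ℂ) : (Bx m → ℂ[X]) →ₗ[ℂ] (Bx m → ℂ) where
  toFun F := ev p F
  map_add' F G := ev_add p F G
  map_smul' s F := ev_smul p s F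

/-- multiplication by `X - p` -/
noncomputable def SUR_mul (p : ℂ) : (Bx m → ℂ[X]) →ₗ[ℂ] (Bx m → ℂ[X]) where
  toFun F := fun β => (X - C p) * F β
  map_add' F G := by funext β; simp [mul_add]
  map_smul' s F := by funext β; simp

/-- the annihilator of a subspace -/
def SUR_ann (T : Submodule ℂ (Bx m → ℂ)) : Submodule ℂ (Bx m → ℂ) where
  carrier := {a | ∀ z ∈ T, pr a z = 0}
  add_mem' := by
    intro a b ha hb z hz
    rw [pr_add_left, ha z hz, hb z hz, add_zero]
  zero_mem' := fun z _ => pr_zero_left z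
  smul_mem' := by
    intro s a ha z hz
    rw [pr_smul_left, ha z hz, mul_zero]

/-- the pairing with a subspace -/
noncomputable def SUR_pair (T : Submodule ℂ (Bx m → ℂ)) : (Bx m → ℂ) →ₗ[ℂ] Module.Dual ℂ T where
  toFun a := { toFun := fun z => pr a z.1
               map_add' := fun z w => pr_add_right _ _ _
               map_smul' := fun s z => pr_smul_right _ _ _ }
  map_add' a b := by
    apply LinearMap.ext
    intro z
    exact pr_add_left a b z.1
  map_smul' s a := by
    apply LinearMap.ext
    intro z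
    exact pr_smul_left s a z.1

theorem SUR_pair_surj (T : Submodule ℂ (Bx m → ℂ)) : Function.Surjective (SUR_pair T) := by
  intro lam
  obtain ⟨Lam, hLam⟩ := LinearMap.exists_extend lam
  refine ⟨fun β => Lam (Pi.single β 1), ?_⟩
  apply LinearMap.ext
  intro z
  have h1 : Lam z.1 = lam z := by
    have := congrArg (fun L : T →ₗ[ℂ] ℂ => L z) hLam
    exact this
  rw [← h1]
  show pr (fun β => Lam (Pi.single β 1)) z.1 = Lam z.1
  have h2 : z.1 = ∑ β, z.1 β • (Pi.single β (1 : ℂ) : Bx m → ℂ) := by
    funext γ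
    rw [Finset.sum_apply, Finset.sum_eq_single γ]
    · simp
    · intro b _ hb
      simp [Pi.single_eq_of_ne (Ne.symm hb)]
    · intro h
      exact absurd (Finset.mem_univ γ) h
  conv_rhs => rw [h2]
  rw [map_sum]
  unfold pr
  refine Finset.sum_congr rfl fun β _ => ?_
  rw [map_smul, smul_eq_mul, mul_comm]

theorem SUR_ann_dim (T : Submodule ℂ (Bx m → ℂ)) : finrank ℂ (SUR_ann T) + finrank ℂ T = vv m := by
  have h1 := LinearMap.finrank_range_add_finrank_ker (SUR_pair T)
  have h2 : LinearMap.range (SUR_pair T) = ⊤ := LinearMap.range_eq_top.mpr (SUR_pair_surj T)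
  have h3 : LinearMap.ker (SUR_pair T) = SUR_ann T := by
    ext a
    rw [LinearMap.mem_ker]
    constructor
    · intro h z hz
      exact congrArg (fun L : Module.Dual ℂ T => L ⟨z, hz⟩) h
    · intro h
      apply LinearMap.ext
      intro z
      exact h z.1 z.2
  rw [h2, h3, finrank_top, Subspace.dual_finrank_eq] at h1
  have h4 : finrank ℂ (Bx m → ℂ) = vv m := by
    rw [Module.finrank_pi, vv, Fintype.card_pi]
    simp
  omega

end

theorem SUR (hDIV : DIV_stmt) (hCNT : CNT_stmt) (hTDM : TDM_stmt)
    (hTEN : TEN_stmt) : SUR_stmt := by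
  intro K _ _ _ m e l y p hl hcount F hF hne
  obtain ⟨-, -, hT3, -⟩ := hTEN (K := K) (m := m)
  have hy : ∀ i, y i ≠ 0 := hT3 _ _ hne
  have hTan := (hTDM y).2 hy
  have hann := SUR_ann_dim (Tan y)
  have hlow := (hCNT (m := m) (e + 1) ((y, p) :: l) (y, p)).2
  rw [List.length_cons] at hlow
  have h1 : vv m * (e + 1) = vv m * e + vv m := by ring
  have h2 : (l.length + 1) * DD m = l.length * DD m + DD m := by ring
  -- the hyperplane
  let H : Submodule ℂ (Bx m → ℂ[X]) := NN e l ⊓
    { carrier := {G | pr (ev p G) (ten y) = 0}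
      add_mem' := by
        intro a b ha hb
        show pr (ev p (a + b)) (ten y) = 0
        rw [ev_add, pr_add_left, ha, hb, add_zero]
      zero_mem' := by
        show pr (ev p (0 : Bx m → ℂ[X])) (ten y) = 0
        have : ev p (0 : Bx m → ℂ[X]) = 0 := by funext β; simp [ev]
        rw [this, pr_zero_left]
      smul_mem' := by
        intro s a ha
        show pr (ev p (s • a)) (ten y) = 0
        rw [ev_smul, pr_smul_left, ha, mul_zero] }
  have hHle : H ≤ NN e l := inf_le_left
  haveI : Module.Finite ℂ H := Submodule.finiteDimensional_of_le hHle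
  have hHlt : H < NN e l := by
    refine lt_of_le_of_ne hHle ?_
    intro heq
    rw [← heq] at hF
    exact hne hF.2
  have hHdim : finrank ℂ H < finrank ℂ (NN e l) := Submodule.finrank_lt_finrank_of_lt hHlt
  haveI : Module.Finite ℂ (H.map (SUR_mul p)) := Module.Finite.map _ _
  have hup := SUR_aux (NN (e + 1) ((y, p) :: l)) (H.map (SUR_mul p)) (SUR_ann (Tan y))
    (SUR_ev p) (by
      intro G hG z hz
      rw [mem_NN] at hG
      exact (mem_Sg.mp (hG.2 (y, p) List.mem_cons_self)).1 z hz) (by
      intro G hG h0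
      have hG1 := mem_NN.mp hG
      have hGl : G ∈ NN (e + 1) l :=
        mem_NN.mpr ⟨hG1.1, fun Q hQ => hG1.2 Q (List.mem_cons_of_mem _ hQ)⟩
      obtain ⟨G', hG', hGG'⟩ := hDIV (m := m) e l p hl G hGl h0
      refine ⟨G', ⟨hG', ?_⟩, hGG'.symm⟩
      show pr (ev p G') (ten y) = 0
      have h3 := (mem_Sg.mp (hG1.2 (y, p) List.mem_cons_self)).2
      have h4 : dv p G = ev p G' := by
        funext β
        rw [hGG']
        simp [dv, ev]
      rw [← h4]
      exact h3)
  have hmap : finrank ℂ (H.map (SUR_mul p)) ≤ finrank ℂ H := Submodule.finrank_map_le _ _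
  omega

end Pool.Agent.SVA
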